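import Pool.Agent.N65.GP.Defs

/-!
# Project GP, A: a family of functionals on the kernel of a linear map
-/

set_option autoImplicit false

namespace Pool.Agent.N216.GP

open Pool.Agent.N65.GP

lemma lin_sum {P : Type} (φ : (P →₀ ℝ) →ₗ[ℝ] ℝ) (v : P →₀ ℝ) :
    φ v = v.sum fun p w => w * φ (Finsupp.single p 1) := by
  have h : v.sum Finsupp.single = v := Finsupp.sum_single v
  calc φ v = φ (v.sum Finsupp.single) := by rw [h]
    _ = ∑ p ∈ v.support, φ (Finsupp.single p (v p)) := by rw [Finsupp.sum, map_sum]
    _ = v.sum fun p w => w * φ (Finsupp.single p 1) := by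
      rw [Finsupp.sum]
      refine Finset.sum_congr rfl fun p _ => ?_
      have e : Finsupp.single p (v p) = v p • Finsupp.single p (1 : ℝ) := by
        rw [Finsupp.smul_single, smul_eq_mul, mul_one]
      rw [e, map_smul, smul_eq_mul]

theorem t_A : S_A := by
  classical
  intro I P d A f h r
  set F : (I →₀ ℝ) →ₗ[ℝ] (Fin d → ℝ) := LinearMap.pi f with hF
  have htop : Submodule.map F (LinearMap.ker A) = ⊤ := by
    by_contra hne
    obtain ⟨g, hg0, hg⟩ := Submodule.exists_le_ker_of_lt_top _ (lt_top_iff_ne_top.2 hne)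
    have hgs : ∀ v : Fin d → ℝ, g v = ∑ l, g (Pi.single l 1) * v l := by
      intro v
      rw [LinearMap.pi_apply_eq_sum_univ g v]
      refine Finset.sum_congr rfl fun l _ => ?_
      rw [smul_eq_mul, mul_comm]
      congr 2
      funext j
      rw [Pi.single_apply]
      by_cases e : l = j
      · rw [if_pos e, if_pos e.symm]
      · rw [if_neg e, if_neg (fun e' => e e'.symm)]
    have hs : (fun l => g (Pi.single l 1)) ≠ 0 := by
      intro h0
      apply hg0
      have h1 : ∀ l, g (Pi.single l 1) = 0 := fun l => congrFun h0 l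
      refine LinearMap.ext fun v => ?_
      rw [hgs v]
      simp only [h1, zero_mul, Finset.sum_const_zero, LinearMap.zero_apply]
    have hmem : g.comp F ∈ (LinearMap.ker A).dualAnnihilator := by
      rw [Submodule.mem_dualAnnihilator]
      intro x hx
      have h1 := hg (Submodule.mem_map_of_mem (f := F) hx)
      exact h1
    rw [← LinearMap.range_dualMap_eq_dualAnnihilator_ker] at hmem
    obtain ⟨φ', hφ'⟩ := hmem
    refine h _ hs ⟨fun p => φ' (Finsupp.single p 1), fun i => ?_⟩
    rw [← lin_sum]
    have h2 : φ' (A (Finsupp.single i 1)) = g (F (Finsupp.single i 1)) := by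
      have := LinearMap.congr_fun hφ' (Finsupp.single i 1)
      exact this
    rw [h2, hgs]
    rfl
  have hr : r ∈ Submodule.map F (LinearMap.ker A) := by
    rw [htop]
    exact Submodule.mem_top
  obtain ⟨μ, hμ, hμ2⟩ := hr
  exact ⟨μ, hμ, fun l => congrFun hμ2 l⟩

end Pool.Agent.N216.GP
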